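import Mathlib
import Pool.Agent.Lib_MP_0ccc25_pr.Seq

/-!
# The diameter of random Cayley graphs of finite Abelian groups concentrates

Let `G n` be finite Abelian groups with `|G n| → ∞`, and `k n → ∞` with `k n ≤ C log |G n|` for large
`n` and `k n - d(G n) → ∞`. For a tuple `z` of generators let `circulantGraph (Set.range z)` be the
Cayley graph. The theorem: with `D n` the smallest diameter over all `k n`-tuples of generators,
the proportion of tuples for which the graph is disconnected or its diameter divided by `D n` is not
within `ε` of one tends to zero, for every `ε > 0`.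

Outline (see also `Lib_MP_0ccc25_pr/Blueprint.md`). Let `S = |G| ^ (1 / k)`. The words of an optimal
tuple give a law of a random letter with cross entropy bounds modulo every `g`; it is modified to be
exactly uniform modulo a critical modulus, with an entropy gain modulo every other `g`. If
`log S ≤ c k`, second moments over characters show that a random tuple covers all but an
exponentially small proportion of the group by words of length `(1 + ε) D`; a bounded number of
reserved generators squares the uncovered density repeatedly; a deep hole would have too many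
uncovered neighbours. If `log S ≥ c k`, high moments are bounded by a sum over the lattices of
relations between characters, with a Littlewood-Offord argument.
-/

namespace Pool.Agent.Results.MP_0ccc25_pr.DiameterConcentration

open Filter SimpleGraph

theorem cay_eq {G : Type} [AddCommGroup G] {k : ℕ} (z : Fin k → G) :
    DiamAb.cay z = circulantGraph (Set.range z) := by
  ext x y
  simp only [DiamAb.cay, circulantGraph_adj, Set.mem_range, ne_eq]
  constructor
  · rintro ⟨h, i, h1 | h1⟩
    · exact ⟨h, Or.inr ⟨i, by rw [h1]; abel⟩⟩
    · exact ⟨h, Or.inl ⟨i, by rw [h1]; abel⟩⟩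
  · rintro ⟨h, ⟨i, h1⟩ | ⟨i, h1⟩⟩
    · exact ⟨h, i, Or.inr (by rw [h1]; abel)⟩
    · exact ⟨h, i, Or.inl (by rw [h1]; abel)⟩

theorem result (G : ℕ → Type) [∀ n, AddCommGroup (G n)] [∀ n, Fintype (G n)] (k : ℕ → ℕ)
    (hG : Tendsto (fun n => Fintype.card (G n)) atTop atTop)
    (hk : Tendsto k atTop atTop)
    (hC : ∃ C : ℝ, ∀ᶠ n in atTop, (k n : ℝ) ≤ C * Real.log (Fintype.card (G n)))
    (hr : Tendsto (fun n => (k n : ℤ) - AddGroup.rank (G n)) atTop atTop) :
    ∃ D : ℕ → ℝ,
      (∀ n, D n = ((⨅ z : Fin (k n) → G n, (circulantGraph (Set.range z)).ediam).toNat : ℝ)) ∧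
      ∀ ε : ℝ, 0 < ε →
        Tendsto (fun n =>
          (Nat.card {z : Fin (k n) → G n //
            ¬ ((circulantGraph (Set.range z)).ediam ≠ ⊤ ∧
              |((circulantGraph (Set.range z)).ediam.toNat : ℝ) / D n - 1| ≤ ε)} : ℝ) /
            (Fintype.card (G n) : ℝ) ^ k n) atTop (nhds 0) := by
  classical
  refine ⟨_, fun n => rfl, fun ε hε => ?_⟩
  refine (DiamAb.seq_form G k hG hk hC hr ε hε).congr fun n => ?_
  simp only [cay_eq]
  rw [DiamAb.pr_def, Nat.card_eq_fintype_card, Fintype.card_subtype, Fintype.card_fun,
    Fintype.card_fin, Nat.cast_pow]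

end Pool.Agent.Results.MP_0ccc25_pr.DiameterConcentration
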